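import Mathlib
import Pool.Agent.R361.FA.Main

/-!
# First approach times of two rotation orbits to an interval (MP_a4d326_an)

`E¹_ε` has measure at least `0.501 · 4π²` for all `0 < ε ≤ 10⁻³⁰`; in particular
`μ(E¹_ε) - μ(E²_ε)` does not tend to `0` as `ε → 0⁺`.
-/

set_option autoImplicit false

namespace Pool.Agent.Results.MP_a4d326_an.FirstOrbitWins

open MeasureTheory Filter Topology Pool.Agent.R361.FA

/-- `x mod 2π`, the representative of `x` modulo `2π` in `[0, 2π)` -/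
noncomputable def md (x : ℝ) : ℝ := toIcoMod Real.two_pi_pos 0 x

/-- the square `E = [0, 2π)²` -/
def E : Set (ℝ × ℝ) := Set.Ico 0 (2 * Real.pi) ×ˢ Set.Ico 0 (2 * Real.pi)

/-- `τ₁(a,b)`: the least `n ≥ 1` with `(n a - b) mod 2π < ε` (`⊤` if there is none) -/
noncomputable def tau1 (ε : ℝ) (p : ℝ × ℝ) : ℕ∞ :=
  sInf ((fun n : ℕ => (n : ℕ∞)) '' {n : ℕ | 1 ≤ n ∧ md (n * p.1 - p.2) < ε})

/-- `τ₂(a,b)`: the least `n ≥ 1` with `(n a - n b) mod 2π < ε` (`⊤` if there is none) -/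
noncomputable def tau2 (ε : ℝ) (p : ℝ × ℝ) : ℕ∞ :=
  sInf ((fun n : ℕ => (n : ℕ∞)) '' {n : ℕ | 1 ≤ n ∧ md (n * p.1 - n * p.2) < ε})

/-- `E¹_ε` -/
def E1 (ε : ℝ) : Set (ℝ × ℝ) := {p | p ∈ E ∧ tau1 ε p < tau2 ε p}

/-- `E²_ε`, the complement of `E¹_ε` in `E` -/
def E2 (ε : ℝ) : Set (ℝ × ℝ) := E \ E1 ε

/-! ### Proof -/

lemma md_lt_iff (x ε : ℝ) : md x < ε ↔ Int.fract (x / (2 * Real.pi)) < ε / (2 * Real.pi) := by
  unfold md
  rw [toIcoMod_eq_add_fract_mul, zero_add, sub_zero, lt_div_iff₀ Real.two_pi_pos]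

lemma sInf_cast_lt_iff {A B : Set ℕ} : sInf ((fun n : ℕ => (n : ℕ∞)) '' A) < sInf ((fun n : ℕ => (n : ℕ∞)) '' B) ↔
    ∃ n ∈ A, ∀ m ∈ B, n < m := by
  constructor
  · intro h
    rw [sInf_lt_iff] at h
    obtain ⟨_, ⟨n, hn, rfl⟩, h2⟩ := h
    refine ⟨n, hn, fun m hm => ?_⟩
    have h3 : sInf ((fun n : ℕ => (n : ℕ∞)) '' B) ≤ (m : ℕ∞) := sInf_le ⟨m, hm, rfl⟩
    have h4 : (n : ℕ∞) < (m : ℕ∞) := lt_of_lt_of_le h2 h3
    exact_mod_cast h4
  · rintro ⟨n, hn, h⟩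
    have h1 : sInf ((fun n : ℕ => (n : ℕ∞)) '' A) ≤ (n : ℕ∞) := sInf_le ⟨n, hn, rfl⟩
    have h2 : ((n + 1 : ℕ) : ℕ∞) ≤ sInf ((fun n : ℕ => (n : ℕ∞)) '' B) := by
      apply le_sInf
      rintro _ ⟨m, hm, rfl⟩
      have h3 : n + 1 ≤ m := h m hm
      show ((n + 1 : ℕ) : ℕ∞) ≤ (m : ℕ∞)
      exact_mod_cast h3
    refine lt_of_le_of_lt h1 (lt_of_lt_of_le ?_ h2)
    exact_mod_cast Nat.lt_succ_self n

lemma tau_lt_iff (ε : ℝ) (p : ℝ × ℝ) : tau1 ε p < tau2 ε p ↔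
    Goal (ε / (2 * Real.pi)) (p.1 / (2 * Real.pi)) ((p.1 - p.2) / (2 * Real.pi)) := by
  unfold tau1 tau2
  rw [sInf_cast_lt_iff]
  unfold Goal
  have hpi := Real.two_pi_pos.ne'
  have e1 : ∀ n : ℕ, (((n + 1 : ℕ) : ℝ) * p.1 - p.2) / (2 * Real.pi) = (p.1 - p.2) / (2 * Real.pi) + n * (p.1 / (2 * Real.pi)) := by
    intro n; push_cast; ring
  have e2 : ∀ n : ℕ, ((n : ℝ) * p.1 - n * p.2) / (2 * Real.pi) = n * ((p.1 - p.2) / (2 * Real.pi)) := by
    intro n; ring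
  constructor
  · rintro ⟨n, ⟨hn1, hn2⟩, h⟩
    obtain ⟨j, rfl⟩ : ∃ j, n = j + 1 := ⟨n - 1, by omega⟩
    rw [md_lt_iff, e1] at hn2
    refine ⟨j, hn2, fun m hm1 hm2 => ?_⟩
    by_contra hlt
    push Not at hlt
    have := h m ⟨hm1, by rw [md_lt_iff, e2]; exact hlt⟩
    omega
  · rintro ⟨j, hj, h⟩
    refine ⟨j + 1, ⟨by omega, by rw [md_lt_iff, e1]; exact hj⟩, ?_⟩
    rintro m ⟨hm1, hm2⟩
    rw [md_lt_iff, e2] at hm2
    by_contra hlt
    push Not at hlt
    exact absurd (h m hm1 hlt) (not_le.2 hm2)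

lemma goal_periodic (d x : ℝ) : Function.Periodic (fun z => ind (Goal d) x z) 1 := by
  intro z
  refine ind_congr ?_
  unfold Goal
  refine exists_congr fun j => and_congr ?_ (forall_congr' fun m => ?_)
  · rw [show z + 1 + j * x = z + j * x + 1 by ring, Int.fract_add_one]
  · rw [mul_add, mul_one, Int.fract_add_natCast]

lemma meas_set (ε : ℝ) : MeasurableSet {p : ℝ × ℝ | tau1 ε p < tau2 ε p} := by
  have : {p : ℝ × ℝ | tau1 ε p < tau2 ε p} = (fun p : ℝ × ℝ => (p.1 / (2 * Real.pi), (p.1 - p.2) / (2 * Real.pi))) ⁻¹'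
      {x : ℝ × ℝ | Goal (ε / (2 * Real.pi)) x.1 x.2} := by
    ext p
    exact tau_lt_iff ε p
  rw [this]
  exact (meas_Goal _).preimage ((measurable_fst.div_const _).prodMk ((measurable_fst.sub measurable_snd).div_const _))

lemma meas_E : MeasurableSet E := measurableSet_Ico.prod measurableSet_Ico

lemma meas_E1 (ε : ℝ) : MeasurableSet (E1 ε) := meas_E.inter (meas_set ε)

lemma vol_E : volume E = ENNReal.ofReal (2 * Real.pi) * ENNReal.ofReal (2 * Real.pi) := by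
  unfold E
  rw [Measure.volume_eq_prod, Measure.prod_prod, Real.volume_Ico, sub_zero]

lemma vol_E_real : volume.real E = (2 * Real.pi) * (2 * Real.pi) := by
  rw [measureReal_def, vol_E, ENNReal.toReal_mul, ENNReal.toReal_ofReal Real.two_pi_pos.le]

lemma vol_E_ne_top : volume E ≠ ⊤ := by
  rw [vol_E]; exact ENNReal.mul_ne_top ENNReal.ofReal_ne_top ENNReal.ofReal_ne_top

lemma integral_Ico_scale (g : ℝ → ℝ) :
    ∫ b in Set.Ico 0 (2 * Real.pi), g (b / (2 * Real.pi)) = (2 * Real.pi) * ∫ y in (0:ℝ)..1, g y := by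
  have hpi := Real.two_pi_pos
  rw [Measure.restrict_congr_set Ico_ae_eq_Ioc, ← intervalIntegral.integral_of_le hpi.le,
    intervalIntegral.integral_comp_div (fun x => g x) hpi.ne', zero_div, div_self hpi.ne', smul_eq_mul]

/-- the measure of `E¹` in normalised coordinates -/
lemma vol_E1 (ε : ℝ) : volume.real (E1 ε) =
    (2 * Real.pi) * (2 * Real.pi) * ∫ a, ∫ c, ind (Goal (ε / (2 * Real.pi))) a c ∂lam ∂lam := by
  set d := ε / (2 * Real.pi) with hd
  set g : ℝ × ℝ → ℝ := fun p => ind (Goal d) (p.1 / (2 * Real.pi)) ((p.1 - p.2) / (2 * Real.pi)) with hg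
  have hgm : Measurable g :=
    (ind_measurable2 (meas_Goal d)).comp ((measurable_fst.div_const _).prodMk ((measurable_fst.sub measurable_snd).div_const _))
  have h1 : volume.real (E1 ε) = ∫ p in E, g p := by
    have e1 : ∫ p in E, g p = ∫ p in E, (E1 ε).indicator (fun _ => (1:ℝ)) p := by
      refine setIntegral_congr_fun meas_E fun p hp => ?_
      simp only [hg]
      by_cases h : tau1 ε p < tau2 ε p
      · have h2 : p ∈ E1 ε := ⟨hp, h⟩
        rw [Set.indicator_of_mem h2]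
        unfold ind
        rw [if_pos ((tau_lt_iff ε p).1 h)]
      · have h2 : p ∉ E1 ε := fun h' => h h'.2
        rw [Set.indicator_of_notMem h2]
        unfold ind
        rw [if_neg (fun h' => h ((tau_lt_iff ε p).2 h'))]
    rw [e1, setIntegral_indicator (meas_E1 ε), setIntegral_const, smul_eq_mul, mul_one]
    congr 1
    ext p
    exact ⟨fun h => ⟨h.1, h⟩, fun h => h.2⟩
  have hgi : IntegrableOn g (Set.Ico 0 (2 * Real.pi) ×ˢ Set.Ico 0 (2 * Real.pi)) (volume.prod volume) := by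
    refine Measure.integrableOn_of_bounded (M := 1) ?_ hgm.aestronglyMeasurable ?_
    · have := vol_E_ne_top
      rw [Measure.volume_eq_prod] at this
      exact this
    · exact Eventually.of_forall fun p => by rw [Real.norm_eq_abs]; exact abs_ind_le _ _ _
  have h2 : ∫ p in E, g p = ∫ a in Set.Ico 0 (2 * Real.pi), ∫ b in Set.Ico 0 (2 * Real.pi), g (a, b) := by
    unfold E
    rw [Measure.volume_eq_prod]
    exact setIntegral_prod g hgi
  have h3 : ∀ a, ∫ b in Set.Ico 0 (2 * Real.pi), g (a, b) = (2 * Real.pi) * ∫ c, ind (Goal d) (a / (2 * Real.pi)) c ∂lam := by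
    intro a
    have e1 : ∀ b, g (a, b) = (fun y => ind (Goal d) (a / (2 * Real.pi)) (a / (2 * Real.pi) - y)) (b / (2 * Real.pi)) := by
      intro b
      simp only [hg]
      rw [sub_div]
    simp_rw [e1]
    rw [integral_Ico_scale (fun y => ind (Goal d) (a / (2 * Real.pi)) (a / (2 * Real.pi) - y)), integral_lam]
    congr 1
    have e2 := intervalIntegral.integral_comp_sub_left (a := 0) (b := 1) (fun z => ind (Goal d) (a / (2 * Real.pi)) z) (a / (2 * Real.pi))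
    rw [e2, sub_zero]
    have e3 := (goal_periodic d (a / (2 * Real.pi))).intervalIntegral_add_eq (a / (2 * Real.pi) - 1) 0
    rw [sub_add_cancel, zero_add] at e3
    exact e3
  rw [h1, h2]
  simp_rw [h3]
  rw [integral_const_mul, integral_Ico_scale (fun x => ∫ c, ind (Goal d) x c ∂lam), ← integral_lam, ← mul_assoc]

lemma E1_subset (ε : ℝ) : E1 ε ⊆ E := fun _ hp => hp.1

lemma vol_E2 (ε : ℝ) : volume.real (E2 ε) = volume.real E - volume.real (E1 ε) := by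
  unfold E2
  exact measureReal_sdiff (E1_subset ε) (meas_E1 ε) vol_E_ne_top

/-- **Theorem.** For every `0 < ε ≤ 10⁻³⁰` the set `E¹_ε` has measure at least `0.501 · μ(E)`, hence
`μ(E¹_ε) - μ(E²_ε) ≥ 0.002 · μ(E) > 0`, and `μ(E¹_ε) - μ(E²_ε)` does not tend to `0` as `ε → 0⁺`,
nor does `μ(E¹_ε)/μ(E)` tend to `1/2`. -/
theorem result :
    (∀ ε : ℝ, 0 < ε → ε ≤ 1 / 10 ^ 30 →
      0.501 * volume.real E ≤ volume.real (E1 ε) ∧
      0.002 * volume.real E ≤ volume.real (E1 ε) - volume.real (E2 ε) ∧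
      volume (E2 ε) < volume (E1 ε)) ∧
    ¬ Tendsto (fun ε => volume.real (E1 ε) - volume.real (E2 ε)) (𝓝[>] 0) (𝓝 0) ∧
    ¬ Tendsto (fun ε => volume.real (E1 ε) / volume.real E) (𝓝[>] 0) (𝓝 (1 / 2)) := by
  have hE : 0 < volume.real E := by
    rw [vol_E_real]; exact mul_pos Real.two_pi_pos Real.two_pi_pos
  have main : ∀ ε : ℝ, 0 < ε → ε ≤ 1 / 10 ^ 30 → 0.501 * volume.real E ≤ volume.real (E1 ε) := by
    intro ε h0 h1
    rw [vol_E1, vol_E_real]
    have h2 : 0 < ε / (2 * Real.pi) := div_pos h0 Real.two_pi_pos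
    have h3 : ε / (2 * Real.pi) ≤ 1 / 10 ^ 30 := by
      refine le_trans (div_le_self h0.le ?_) h1
      linarith [Real.pi_gt_three]
    have h4 := core h2 h3
    have h5 : 0 ≤ (2 * Real.pi) * (2 * Real.pi) := by positivity
    rw [mul_comm (0.501 : ℝ)]
    exact mul_le_mul_of_nonneg_left h4 h5
  have diff : ∀ ε : ℝ, 0 < ε → ε ≤ 1 / 10 ^ 30 → 0.002 * volume.real E ≤ volume.real (E1 ε) - volume.real (E2 ε) := by
    intro ε h0 h1
    have := main ε h0 h1
    rw [vol_E2]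
    linarith
  have hev : ∀ᶠ ε : ℝ in 𝓝[>] 0, 0 < ε ∧ ε ≤ 1 / 10 ^ 30 := by
    have : Set.Ioc (0:ℝ) (1 / 10 ^ 30) ∈ 𝓝[>] (0:ℝ) := Ioc_mem_nhdsGT (by positivity)
    filter_upwards [this] with ε hε using hε
  refine ⟨fun ε h0 h1 => ⟨main ε h0 h1, diff ε h0 h1, ?_⟩, ?_, ?_⟩
  · have h2 := diff ε h0 h1
    have hfin1 : volume (E1 ε) ≠ ⊤ := ne_top_of_le_ne_top vol_E_ne_top (measure_mono (E1_subset ε))
    have hfin2 : volume (E2 ε) ≠ ⊤ := ne_top_of_le_ne_top vol_E_ne_top (measure_mono fun p hp => hp.1)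
    rw [← ENNReal.toReal_lt_toReal hfin2 hfin1]
    have h3 : 0 < 0.002 * volume.real E := by positivity
    have h4 : volume.real (E2 ε) < volume.real (E1 ε) := by linarith
    exact h4
  · intro h
    have h1 : ∀ᶠ ε : ℝ in 𝓝[>] 0, 0.002 * volume.real E ≤ volume.real (E1 ε) - volume.real (E2 ε) := by
      filter_upwards [hev] with ε hε using diff ε hε.1 hε.2
    have h2 := ge_of_tendsto h h1
    have h3 : 0 < 0.002 * volume.real E := by positivity
    linarith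
  · intro h
    have h1 : ∀ᶠ ε : ℝ in 𝓝[>] 0, 0.501 ≤ volume.real (E1 ε) / volume.real E := by
      filter_upwards [hev] with ε hε
      rw [le_div_iff₀ hE]
      exact main ε hε.1 hε.2
    have h2 := ge_of_tendsto h h1
    norm_num at h2

end Pool.Agent.Results.MP_a4d326_an.FirstOrbitWins
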